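import Pool.Agent.BER.StmtsE

/-!
# BER, row JSD: the regular radial solution
-/

set_option autoImplicit false

namespace Pool.Agent.BER.H75

open Set Filter Topology MeasureTheory
open Pool.Agent.BER

/-- the terms of the series of the derivative -/
noncomputable def g1 (d n : ℕ) (x : ℝ) : ℝ := bd d n * (((2 * n : ℕ) : ℝ) * x ^ (2 * n - 1))

/-- the terms of the series of the second derivative -/
noncomputable def g2 (d n : ℕ) (x : ℝ) : ℝ :=
  bd d n * (((2 * n : ℕ) : ℝ) * (((2 * n - 1 : ℕ) : ℝ) * x ^ (2 * n - 1 - 1)))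

theorem bd_succ (d n : ℕ) : bd d (n + 1) = -bd d n / (2 * ((n : ℝ) + 1) * (2 * n + d)) := rfl

theorem bd_abs (d : ℕ) (hd : 2 ≤ d) (n : ℕ) : |bd d n| ≤ 1 / (4 ^ n * (n.factorial : ℝ) ^ 2) := by
  have hd' : (2 : ℝ) ≤ d := by exact_mod_cast hd
  induction n with
  | zero =>
    show |(1 : ℝ)| ≤ _
    simp
  | succ n ih =>
    have hn : (0 : ℝ) ≤ n := Nat.cast_nonneg n
    rw [bd_succ, abs_div, abs_neg, abs_of_pos (by positivity : (0:ℝ) < 2 * ((n : ℝ) + 1) * (2 * n + d)),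
      Nat.factorial_succ]
    push_cast
    have h1 : (2 * ((n : ℝ) + 1)) * (2 * ((n : ℝ) + 1)) ≤ 2 * ((n : ℝ) + 1) * (2 * n + d) :=
      mul_le_mul_of_nonneg_left (by linarith) (by positivity)
    calc |bd d n| / (2 * ((n : ℝ) + 1) * (2 * n + d)) ≤
        |bd d n| / ((2 * ((n : ℝ) + 1)) * (2 * ((n : ℝ) + 1))) :=
          div_le_div_of_nonneg_left (abs_nonneg _) (by positivity) h1
      _ ≤ (1 / (4 ^ n * (n.factorial : ℝ) ^ 2)) / ((2 * ((n : ℝ) + 1)) * (2 * ((n : ℝ) + 1))) :=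
          div_le_div_of_nonneg_right ih (by positivity)
      _ = 1 / (4 ^ (n + 1) * (((n : ℝ) + 1) * (n.factorial : ℝ)) ^ 2) := by
          have h2 : (n.factorial : ℝ) ≠ 0 := by exact_mod_cast n.factorial_ne_zero
          have h3 : (n : ℝ) + 1 ≠ 0 := by positivity
          field_simp
          ring

/-- the majorant -/
theorem bd_bound (d : ℕ) (hd : 2 ≤ d) (n : ℕ) (R P : ℝ) (hP0 : 0 ≤ P) (hP : P ≤ 4 * 4 ^ n) :
    |bd d n| * (P * R ^ (2 * n)) ≤ 4 * ((R ^ 2) ^ n / n.factorial) := by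
  rw [pow_mul]
  have h1 : (1 : ℝ) ≤ n.factorial := by exact_mod_cast Nat.succ_le_of_lt n.factorial_pos
  have h2 : (0 : ℝ) ≤ (R ^ 2) ^ n := by positivity
  have h3 : (0 : ℝ) < 4 ^ n := by positivity
  have h4 : |bd d n| * (P * (R ^ 2) ^ n) ≤
      1 / (4 ^ n * (n.factorial : ℝ) ^ 2) * (4 * 4 ^ n * (R ^ 2) ^ n) :=
    mul_le_mul (bd_abs d hd n) (mul_le_mul_of_nonneg_right hP h2) (mul_nonneg hP0 h2)
      (by positivity)
  refine h4.trans ?_
  have h5 : 1 / (4 ^ n * (n.factorial : ℝ) ^ 2) * (4 * 4 ^ n * (R ^ 2) ^ n) =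
      4 * ((R ^ 2) ^ n / (n.factorial : ℝ) ^ 2) := by
    field_simp
  rw [h5]
  refine mul_le_mul_of_nonneg_left ?_ (by norm_num)
  refine div_le_div_of_nonneg_left h2 (by linarith) ?_
  nlinarith

theorem maj_summable (R : ℝ) : Summable fun n : ℕ => 4 * ((R ^ 2) ^ n / n.factorial) :=
  (Real.summable_pow_div_factorial (R ^ 2)).mul_left 4

theorem sq_le (n : ℕ) : (((2 * n : ℕ) : ℝ)) * ((2 * n : ℕ) : ℝ) ≤ 4 * 4 ^ n := by
  have h1 : n ≤ 2 ^ n := Nat.lt_two_pow_self.le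
  have h2 : (n : ℝ) ≤ 2 ^ n := by exact_mod_cast h1
  have h3 : (4 : ℝ) ^ n = 2 ^ n * 2 ^ n := by
    rw [← mul_pow]
    norm_num
  rw [h3]
  push_cast
  have h4 : (0 : ℝ) ≤ n := Nat.cast_nonneg n
  nlinarith

theorem g1_bound (d : ℕ) (hd : 2 ≤ d) (n : ℕ) (R x : ℝ) (hR : 1 ≤ R) (hx : |x| ≤ R) :
    |g1 d n x| ≤ 4 * ((R ^ 2) ^ n / n.factorial) := by
  have h0 : (0 : ℝ) ≤ ((2 * n : ℕ) : ℝ) := Nat.cast_nonneg _
  have h1 : |x| ^ (2 * n - 1) ≤ R ^ (2 * n) :=
    (pow_le_pow_left₀ (abs_nonneg x) hx _).trans (pow_le_pow_right₀ hR (Nat.sub_le _ _))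
  have h2 : |g1 d n x| = |bd d n| * (((2 * n : ℕ) : ℝ) * |x| ^ (2 * n - 1)) := by
    unfold g1
    rw [abs_mul, abs_mul, abs_pow, abs_of_nonneg h0]
  rw [h2]
  refine le_trans ?_ (bd_bound d hd n R (((2 * n : ℕ) : ℝ)) h0 ?_)
  · exact mul_le_mul_of_nonneg_left (mul_le_mul_of_nonneg_left h1 h0) (abs_nonneg _)
  · rcases Nat.eq_zero_or_pos n with rfl | hn
    · norm_num
    · have h3 := sq_le n
      have h4 : (1 : ℝ) ≤ ((2 * n : ℕ) : ℝ) := by exact_mod_cast (by omega : 1 ≤ 2 * n)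
      nlinarith

theorem g2_bound (d : ℕ) (hd : 2 ≤ d) (n : ℕ) (R x : ℝ) (hR : 1 ≤ R) (hx : |x| ≤ R) :
    |g2 d n x| ≤ 4 * ((R ^ 2) ^ n / n.factorial) := by
  have h0 : (0 : ℝ) ≤ ((2 * n : ℕ) : ℝ) := Nat.cast_nonneg _
  have h0' : (0 : ℝ) ≤ ((2 * n - 1 : ℕ) : ℝ) := Nat.cast_nonneg _
  have h1 : |x| ^ (2 * n - 1 - 1) ≤ R ^ (2 * n) :=
    (pow_le_pow_left₀ (abs_nonneg x) hx _).trans
      (pow_le_pow_right₀ hR ((Nat.sub_le _ _).trans (Nat.sub_le _ _)))
  have h2 : |g2 d n x| = |bd d n| * (((2 * n : ℕ) : ℝ) * ((2 * n - 1 : ℕ) : ℝ) *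
      |x| ^ (2 * n - 1 - 1)) := by
    unfold g2
    rw [abs_mul, abs_mul, abs_mul, abs_pow, abs_of_nonneg h0, abs_of_nonneg h0']
    ring
  rw [h2]
  refine le_trans ?_ (bd_bound d hd n R (((2 * n : ℕ) : ℝ) * ((2 * n - 1 : ℕ) : ℝ))
    (mul_nonneg h0 h0') ?_)
  · exact mul_le_mul_of_nonneg_left (mul_le_mul_of_nonneg_left h1 (mul_nonneg h0 h0'))
      (abs_nonneg _)
  · refine le_trans ?_ (sq_le n)
    refine mul_le_mul_of_nonneg_left ?_ h0
    exact_mod_cast Nat.sub_le _ _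

theorem g0_summable (d : ℕ) (hd : 2 ≤ d) (x : ℝ) :
    Summable fun n : ℕ => bd d n * x ^ (2 * n) := by
  refine Summable.of_norm_bounded (maj_summable x) fun n => ?_
  rw [Real.norm_eq_abs, abs_mul, abs_of_nonneg (by rw [pow_mul]; positivity : (0 : ℝ) ≤ x ^ (2 * n))]
  have h := bd_bound d hd n x 1 (by norm_num) (by
    have : (1 : ℝ) ≤ 4 ^ n := one_le_pow₀ (by norm_num)
    linarith)
  rwa [one_mul] at h

theorem g1_summable (d : ℕ) (hd : 2 ≤ d) (x : ℝ) : Summable fun n : ℕ => g1 d n x := by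
  refine Summable.of_norm_bounded (maj_summable (max 1 |x|)) fun n => ?_
  rw [Real.norm_eq_abs]
  exact g1_bound d hd n _ x (le_max_left _ _) (le_max_right _ _)

theorem g2_summable (d : ℕ) (hd : 2 ≤ d) (x : ℝ) : Summable fun n : ℕ => g2 d n x := by
  refine Summable.of_norm_bounded (maj_summable (max 1 |x|)) fun n => ?_
  rw [Real.norm_eq_abs]
  exact g2_bound d hd n _ x (le_max_left _ _) (le_max_right _ _)

theorem jd_hasDeriv (d : ℕ) (hd : 2 ≤ d) (x : ℝ) : HasDerivAt (jd d) (∑' n, g1 d n x) x := by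
  have hb : x ∈ Metric.ball (0 : ℝ) (|x| + 1) := by
    rw [Metric.mem_ball, dist_zero_right, Real.norm_eq_abs]
    linarith
  have h := hasDerivAt_tsum_of_isPreconnected (u := fun n : ℕ => 4 * (((|x| + 1) ^ 2) ^ n / n.factorial))
    (g := fun (n : ℕ) (y : ℝ) => bd d n * y ^ (2 * n)) (g' := fun (n : ℕ) (y : ℝ) => g1 d n y)
    (t := Metric.ball (0 : ℝ) (|x| + 1)) (maj_summable _) Metric.isOpen_ball
    (convex_ball _ _).isPreconnected (fun n y _ => (hasDerivAt_pow (2 * n) y).const_mul (bd d n))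
    (fun n y hy => by
      rw [Metric.mem_ball, dist_zero_right, Real.norm_eq_abs] at hy
      rw [Real.norm_eq_abs]
      exact g1_bound d hd n _ y (by linarith [abs_nonneg x]) hy.le) hb (g0_summable d hd x) hb
  exact h

theorem j1_hasDeriv (d : ℕ) (hd : 2 ≤ d) (x : ℝ) :
    HasDerivAt (fun y => ∑' n, g1 d n y) (∑' n, g2 d n x) x := by
  have hb : x ∈ Metric.ball (0 : ℝ) (|x| + 1) := by
    rw [Metric.mem_ball, dist_zero_right, Real.norm_eq_abs]
    linarith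
  have h := hasDerivAt_tsum_of_isPreconnected (u := fun n : ℕ => 4 * (((|x| + 1) ^ 2) ^ n / n.factorial))
    (g := fun (n : ℕ) (y : ℝ) => g1 d n y) (g' := fun (n : ℕ) (y : ℝ) => g2 d n y)
    (t := Metric.ball (0 : ℝ) (|x| + 1)) (maj_summable _) Metric.isOpen_ball
    (convex_ball _ _).isPreconnected (fun n y _ =>
      (((hasDerivAt_pow (2 * n - 1) y).const_mul (((2 * n : ℕ) : ℝ))).const_mul (bd d n)))
    (fun n y hy => by
      rw [Metric.mem_ball, dist_zero_right, Real.norm_eq_abs] at hy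
      rw [Real.norm_eq_abs]
      exact g2_bound d hd n _ y (by linarith [abs_nonneg x]) hy.le) hb (g1_summable d hd x) hb
  exact h

theorem deriv_jd (d : ℕ) (hd : 2 ≤ d) : deriv (jd d) = fun x => ∑' n, g1 d n x := by
  funext x
  exact (jd_hasDeriv d hd x).deriv

theorem deriv2_jd (d : ℕ) (hd : 2 ≤ d) : deriv (deriv (jd d)) = fun x => ∑' n, g2 d n x := by
  rw [deriv_jd d hd]
  funext x
  exact (j1_hasDeriv d hd x).deriv

theorem bd_rec (d : ℕ) (hd : 2 ≤ d) (n : ℕ) :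
    bd d (n + 1) * (2 * ((n : ℝ) + 1) * (2 * n + d)) = -bd d n := by
  have hd' : (2 : ℝ) ≤ d := by exact_mod_cast hd
  have hn : (0 : ℝ) ≤ n := Nat.cast_nonneg n
  rw [bd_succ]
  have h : 2 * ((n : ℝ) + 1) * (2 * n + d) ≠ 0 := by positivity
  exact div_mul_cancel₀ _ h

theorem ode (d : ℕ) (hd : 2 ≤ d) (x : ℝ) :
    x * deriv (deriv (jd d)) x + ((d : ℝ) - 1) * deriv (jd d) x + x * jd d x = 0 := by
  rw [deriv2_jd d hd, deriv_jd d hd]
  show x * (∑' n, g2 d n x) + ((d : ℝ) - 1) * (∑' n, g1 d n x) +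
    x * (∑' n, bd d n * x ^ (2 * n)) = 0
  have hs2 : Summable fun n : ℕ => x * g2 d n x := (g2_summable d hd x).mul_left x
  have hs1 : Summable fun n : ℕ => ((d : ℝ) - 1) * g1 d n x := (g1_summable d hd x).mul_left _
  have e1 : x * (∑' n, g2 d n x) + ((d : ℝ) - 1) * (∑' n, g1 d n x) =
      ∑' n, (x * g2 d n x + ((d : ℝ) - 1) * g1 d n x) := by
    rw [← tsum_mul_left, ← tsum_mul_left, ← hs2.tsum_add hs1]
  have hs3 : Summable fun n : ℕ => x * g2 d n x + ((d : ℝ) - 1) * g1 d n x := hs2.add hs1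
  rw [e1, hs3.tsum_eq_zero_add, ← tsum_mul_left]
  have e0 : x * g2 d 0 x + ((d : ℝ) - 1) * g1 d 0 x = 0 := by
    unfold g2 g1
    simp
  rw [e0, zero_add]
  have e2 : ∀ n : ℕ, x * g2 d (n + 1) x + ((d : ℝ) - 1) * g1 d (n + 1) x =
      -(x * (bd d n * x ^ (2 * n))) := by
    intro n
    unfold g2 g1
    have h1 : 2 * (n + 1) - 1 - 1 = 2 * n := by omega
    have h2 : 2 * (n + 1) - 1 = 2 * n + 1 := by omega
    rw [h1, h2]
    have h3 := bd_rec d hd n
    push_cast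
    calc x * (bd d (n + 1) * (2 * ((n : ℝ) + 1) * ((2 * (n : ℝ) + 1) * x ^ (2 * n)))) +
          ((d : ℝ) - 1) * (bd d (n + 1) * (2 * ((n : ℝ) + 1) * x ^ (2 * n + 1)))
        = x * ((bd d (n + 1) * (2 * ((n : ℝ) + 1) * (2 * n + d))) * x ^ (2 * n)) := by
          ring
      _ = -(x * (bd d n * x ^ (2 * n))) := by
          rw [h3]
          ring
  rw [tsum_congr e2, tsum_neg]
  ring

theorem jd_zero (d : ℕ) : jd d 0 = 1 := by
  unfold jd
  rw [tsum_eq_single 0]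
  · simp [bd]
  · intro n hn
    have h : 2 * n ≠ 0 := by omega
    rw [zero_pow h, mul_zero]

/-- **JSD.** -/
theorem jsd : JsdStmt := by
  intro d hd
  have hD1 : ∀ x, HasDerivAt (jd d) (deriv (jd d) x) x := fun x =>
    (jd_hasDeriv d hd x).differentiableAt.hasDerivAt
  have hD2 : ∀ x, HasDerivAt (deriv (jd d)) (deriv (deriv (jd d)) x) x := by
    intro x
    have h := j1_hasDeriv d hd x
    rw [← deriv_jd d hd] at h
    exact h.differentiableAt.hasDerivAt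
  refine ⟨g0_summable d hd, jd_zero d, hD1, hD2, ode d hd, ?_⟩
  set α : ℝ := ((d : ℝ) - 1) / 2 with hα
  refine ⟨fun x => α * x ^ (α - 1) * jd d x + x ^ α * deriv (jd d) x, ?_, ?_, ?_⟩
  · intro x hx
    have h1 := (Real.hasDerivAt_rpow_const (x := x) (p := α) (Or.inl hx.ne')).mul (hD1 x)
    exact h1
  · intro x hx
    have h1 := ((Real.hasDerivAt_rpow_const (x := x) (p := α - 1) (Or.inl hx.ne')).const_mul α).mul
      (hD1 x)
    have h2 := (Real.hasDerivAt_rpow_const (x := x) (p := α) (Or.inl hx.ne')).mul (hD2 x)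
    refine (h1.add h2).congr_deriv ?_
    have hode := ode d hd x
    have e1 : x ^ (α - 1) = x ^ α / x := by
      rw [Real.rpow_sub_one hx.ne']
    have e2 : x ^ (α - 1 - 1) = x ^ α / x ^ 2 := by
      rw [Real.rpow_sub_one hx.ne', e1, div_div, ← sq]
    have e3 : deriv (deriv (jd d)) x = -((d : ℝ) - 1) * deriv (jd d) x / x - jd d x := by
      have hx' := hx.ne'
      field_simp
      linarith
    rw [e1, e2, e3]
    unfold cd
    rw [hα]
    have hx' := hx.ne'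
    field_simp
    ring
  · have hc : ContinuousAt (jd d) 0 := (hD1 0).continuousAt
    have h0 : 0 < jd d 0 := by rw [jd_zero]; norm_num
    have h1 : ∀ᶠ x in 𝓝 (0 : ℝ), 0 < jd d x := hc.eventually (lt_mem_nhds h0)
    obtain ⟨r, hr, hr2⟩ := Metric.eventually_nhds_iff.1 h1
    refine ⟨r / 2, by positivity, ?_⟩
    have h2 : 0 < jd d (r / 2) := by
      refine hr2 ?_
      rw [dist_zero_right, Real.norm_eq_abs, abs_of_pos (by positivity)]
      linarith
    exact (mul_pos (Real.rpow_pos_of_pos (by positivity) _) h2).ne'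

end Pool.Agent.BER.H75
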